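import Pool.Agent.Q80.FH.Main
import Pool.Agent.Y216.SV.Hul3
import Pool.Agent.TH466.QG.Equiv

/-!
Rational maps from special varieties to projective schemes whose subvarieties are of general type.
-/

set_option autoImplicit false

open FF MvPolynomial Pool.Agent.W603.LV Pool.Agent.W602.GT Pool.Agent.TH710.WH Pool.Agent.Q80.FH

namespace Pool.Agent.Q80.RA

/-- The varieties with the function field `K` are unirational: `K` embeds into a field of rational
functions. -/
def Unirat (k K : Type) [Field k] [Field K] [Algebra k K] : Prop :=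
  ∃ v : ℕ, Nonempty (K →ₐ[k] FractionRing (MvPolynomial (Fin v) k))

/-- There is a dominant rational map from a variety (with the function field `L`) which is special,
possibly after the removal of a closed subset (the places in `Bd` are those with centre in this
subset), to the varieties with the function field `K`. -/
def SpecialDom (k K : Type) [Field k] [Field K] [Algebra k K] : Prop :=
  ∃ (L : Type) (_ : Field L) (_ : Algebra k L) (v : ℕ) (Bd : Place k L → Prop),
    Algebra.trdeg k L = v ∧ Special k L v Bd ∧ Nonempty (K →ₐ[k] L)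

/-- Varieties of general type are not dominated by special varieties. -/
theorem not_dominated {k K : Type} [Field k] [Field K] [Algebra k K] [CharZero k] {w : ℕ}
    (hw : 1 ≤ w) (h : GeneralType k K w) {S : Set K} (hS : S.Finite)
    (htop : IntermediateField.adjoin k S = ⊤) : ¬ SpecialDom k K := by
  rintro ⟨L, _, _, v, Bd, hL, hs, ⟨φ⟩⟩
  let e : K ≃ₐ[k] φ.fieldRange := AlgEquiv.ofInjectiveField φ
  have h1 : IntermediateField.adjoin k (e '' S) = ⊤ := by
    have h2 := congrArg (IntermediateField.map (e : K →ₐ[k] φ.fieldRange)) htop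
    rw [IntermediateField.adjoin_map] at h2
    rw [eq_top_iff]
    intro x _
    have h3 : x ∈ IntermediateField.map (e : K →ₐ[k] φ.fieldRange) ⊤ :=
      ⟨e.symm x, trivial, e.apply_symm_apply x⟩
    rw [← h2] at h3
    exact h3
  exact hs w hw (Pool.Agent.Y216.SV.bog_of_sub φ.fieldRange hL (hS.image e) h1
    (Pool.Agent.TH466.QG.general_of_equiv e h) Bd)

section cover

variable {k : Type} [Field k] {n r : ℕ} (X : FinCover k n r)

/-- The point `(y : z)` of `X` with coordinates in the extension `L` of `k` is a point over `k`: the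
corresponding rational map is constant. -/
def IsConst {L : Type} [Field L] [Algebra k L] (y : Fin (n + 1) → L) (z : Fin r → L) : Prop :=
  ∃ (c : L) (a : Fin (n + 1) → k) (b : Fin r → k), c ≠ 0 ∧ (∀ j, y j = c * algebraMap k L (a j)) ∧
    ∀ i, z i = c ^ X.wt i * algebraMap k L (b i)

/-- All rational maps from special varieties to `X` are constant. -/
def NoSpecial : Prop :=
  ∀ (L : Type) [Field L] [Algebra k L] (v : ℕ) (Bd : Place k L → Prop), Algebra.trdeg k L = v →
    Special k L v Bd → ∀ (y : Fin (n + 1) → L) (z : Fin r → L), X.Pt y z → IsConst X y z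

variable {X}

theorem noSpecial [IsAlgClosed k] [CharZero k] (hX : X.AllGeneralType) : NoSpecial X := by
  classical
  intro L _ _ v Bd hL hs y z h
  obtain ⟨l, hl⟩ := Function.ne_iff.1 h.1
  have hl' : y l ≠ 0 := hl
  set S : Set L := Set.range (fun j => y j / y l) ∪ Set.range fun i => z i / y l ^ X.wt i with hS
  set M := IntermediateField.adjoin k S with hM
  let y' : Fin (n + 1) → M := fun j =>
    ⟨y j / y l, IntermediateField.subset_adjoin k _ (Or.inl ⟨j, rfl⟩)⟩
  let z' : Fin r → M := fun i =>
    ⟨z i / y l ^ X.wt i, IntermediateField.subset_adjoin k _ (Or.inr ⟨i, rfl⟩)⟩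
  have hy'l : y' l = 1 := Subtype.ext (div_self hl')
  have hpt : X.Pt y' z' := by
    refine ⟨fun h0 => ?_, fun t => ?_⟩
    · have := congrFun h0 l
      rw [hy'l] at this
      exact one_ne_zero this
    · apply Subtype.ext
      have h1 := h.norm hl' t
      have h2 : (fun s => ((Sum.elim y' z' s : M) : L)) =
          Sum.elim (fun j => y j / y l) fun i => z i / y l ^ X.wt i := by
        funext s
        rcases s with s | s <;> rfl
      rw [← h2] at h1
      have h3 := aeval_algebraMap_apply (R := k) (A := M) (B := L) (Sum.elim y' z') (X.eqs t)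
      change aeval (fun s => ((Sum.elim y' z' s : M) : L)) (X.eqs t) = _ at h3
      rw [h1] at h3
      exact h3.symm
  have hfin : (Set.range y' ∪ Set.range z').Finite := (Set.finite_range _).union (Set.finite_range _)
  have htop : IntermediateField.adjoin k (Set.range y' ∪ Set.range z') = ⊤ := by
    have h2 : (IntermediateField.adjoin k (Set.range y' ∪ Set.range z')).map M.val = M := by
      have h3 : M.val '' (Set.range y' ∪ Set.range z') = S := by
        rw [Set.image_union, ← Set.range_comp, ← Set.range_comp]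
        rfl
      rw [IntermediateField.adjoin_map, h3]
    rw [eq_top_iff]
    intro x _
    have h3 : (x : L) ∈ (IntermediateField.adjoin k (Set.range y' ∪ Set.range z')).map M.val := by
      rw [h2]
      exact x.2
    obtain ⟨x', hx', hxx⟩ := h3
    have h4 : x' = x := Subtype.ext hxx
    rwa [← h4]
  obtain ⟨w', hw'⟩ : ∃ w' : ℕ, Algebra.trdeg k M = w' := by
    have h1 : Algebra.trdeg k M ≤ Algebra.trdeg k L := by
      exact trdeg_le_of_injective M.val M.val.toRingHom.injective
    have h2 : Algebra.trdeg k M < Cardinal.aleph0 := by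
      rw [hL] at h1
      exact lt_of_le_of_lt h1 (Cardinal.natCast_lt_aleph0 (n := v))
    exact Cardinal.lt_aleph0.1 h2
  have hsub : X.SubVar M w' y' z' := by
    refine ⟨hpt, ?_, hw'⟩
    rw [eq_top_iff, ← htop, IntermediateField.adjoin_le_iff]
    rintro _ (⟨j, rfl⟩ | ⟨i, rfl⟩)
    · refine IntermediateField.subset_adjoin k _ ⟨l, ?_, Or.inl ⟨j, ?_⟩⟩
      · rw [hy'l]; exact one_ne_zero
      · rw [hy'l, div_one]
    · refine IntermediateField.subset_adjoin k _ ⟨l, ?_, Or.inr ⟨i, ?_⟩⟩
      · rw [hy'l]; exact one_ne_zero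
      · rw [hy'l, one_pow, div_one]
  rcases Nat.eq_zero_or_pos w' with h0 | h0
  · subst h0
    have halg : Algebra.IsAlgebraic k M := by
      rw [Nat.cast_zero, trdeg_eq_zero_iff] at hw'
      exact hw'
    have hc : ∀ x : M, ∃ c : k, algebraMap k L c = x := by
      intro x
      obtain ⟨c, hc⟩ := (IsAlgClosed.algebraMap_bijective_of_isIntegral (k := k) (K := M)).2 x
      exact ⟨c, by rw [← hc]; rfl⟩
    choose c hc using hc
    refine ⟨y l, fun j => c (y' j), fun i => c (z' i), hl', fun j => ?_, fun i => ?_⟩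
    · rw [hc]
      show y j = y l * (y j / y l)
      field_simp
    · rw [hc]
      show z i = y l ^ X.wt i * (z i / y l ^ X.wt i)
      field_simp
  · exact absurd (Pool.Agent.Y216.SV.bog_of_sub M hL hfin htop (hX M w' y' z' h0 hsub) Bd)
      (hs w' h0)

/-- a point over a bigger field -/
theorem pt_map {K L : Type} [Field K] [Algebra k K] [Field L] [Algebra k L] (φ : K →ₐ[k] L)
    {y : Fin (n + 1) → K} {z : Fin r → K} (h : X.Pt y z) :
    X.Pt (fun j => φ (y j)) (fun i => φ (z i)) := by
  refine ⟨fun h0 => h.1 (funext fun j => ?_), fun t => ?_⟩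
  · exact (map_eq_zero φ).1 (congrFun h0 j)
  · have h2 : (fun s => φ (Sum.elim y z s)) = Sum.elim (fun j => φ (y j)) fun i => φ (z i) := by
      funext s
      rcases s with s | s <;> rfl
    have h1 := congrArg φ (h.2 t)
    rw [map_zero, ← h2] at *
    rw [← h1, ← comp_aeval_apply]

theorem dim_zero_of_const {K L : Type} [Field K] [Algebra k K] [Field L] [Algebra k L]
    (φ : K →ₐ[k] L) {w : ℕ} {y : Fin (n + 1) → K} {z : Fin r → K} (h : X.SubVar K w y z)
    (hc : IsConst X (fun j => φ (y j)) (fun i => φ (z i))) : w = 0 := by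
  obtain ⟨c, a, b, hc0, ha, hb⟩ := hc
  beta_reduce at ha hb
  have hmem : ∀ f : K, (∃ l, y l ≠ 0 ∧ ((∃ j, f = y j / y l) ∨ ∃ i, f = z i / y l ^ X.wt i)) →
      f ∈ (⊥ : IntermediateField k K) := by
    rintro f ⟨l, hl, hf⟩
    have hl' : φ (y l) ≠ 0 := (map_ne_zero φ).2 hl
    have hal : algebraMap k L (a l) ≠ 0 := by
      intro h0
      apply hl'
      rw [ha, h0, mul_zero]
    have hex : ∃ e : k, φ f = algebraMap k L e := by
      rcases hf with ⟨j, rfl⟩ | ⟨i, rfl⟩
      · refine ⟨a j / a l, ?_⟩
        rw [map_div₀, ha j, ha l, map_div₀]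
        field_simp
      · refine ⟨b i / a l ^ X.wt i, ?_⟩
        rw [map_div₀, map_pow, hb i, ha l, map_div₀, map_pow, mul_pow]
        field_simp
    obtain ⟨e, he⟩ := hex
    rw [IntermediateField.mem_bot]
    refine ⟨e, ?_⟩
    apply φ.toRingHom.injective
    show φ _ = φ f
    rw [he, AlgHom.commutes]
  have htop : (⊥ : IntermediateField k K) = ⊤ := by
    rw [eq_top_iff, ← h.gen, IntermediateField.adjoin_le_iff]
    intro f hf
    exact hmem f hf
  have halg : Algebra.IsAlgebraic k K := by
    refine ⟨fun x => ?_⟩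
    have hx : x ∈ (⊥ : IntermediateField k K) := by rw [htop]; trivial
    obtain ⟨e, rfl⟩ := IntermediateField.mem_bot.1 hx
    exact isAlgebraic_algebraMap e
  have h1 := h.dim
  rw [trdeg_eq_zero] at h1
  exact_mod_cast h1.symm

theorem tfae [IsAlgClosed k] [CharZero k] (hX : NoSpecial X) {K : Type} [Field K] [Algebra k K]
    {w : ℕ} {y : Fin (n + 1) → K} {z : Fin r → K} (h : X.SubVar K w y z) :
    [w = 0, PurelyTranscendental k K, Unirat k K, Special k K w (fun _ => False),
      SpecialDom k K].TFAE := by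
  have hbij : w = 0 → Function.Bijective (algebraMap k K) := by
    rintro rfl
    have h1 := h.dim
    rw [Nat.cast_zero, trdeg_eq_zero_iff] at h1
    exact IsAlgClosed.algebraMap_bijective_of_isIntegral (k := k) (K := K)
  tfae_have 1 → 2 := by
    intro hw
    refine ⟨Empty, inferInstance, Empty.elim, algebraicIndependent_empty_type_iff.2
      (algebraMap k K).injective, ?_⟩
    rw [eq_top_iff]
    intro x _
    obtain ⟨c, rfl⟩ := (hbij hw).2 x
    exact IntermediateField.algebraMap_mem _ c
  tfae_have 2 → 4 := special_of_rational h.dim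
  tfae_have 4 → 5 := fun hs => ⟨K, _, _, w, _, h.dim, hs, ⟨AlgHom.id k K⟩⟩
  tfae_have 5 → 1 := by
    rintro ⟨L, _, _, v, Bd, hL, hs, ⟨φ⟩⟩
    exact dim_zero_of_const φ h (hX L v Bd hL hs _ _ (pt_map φ h.pt))
  tfae_have 1 → 3 := by
    intro hw
    let e : k ≃ₐ[k] K := AlgEquiv.ofBijective (Algebra.ofId k K) (hbij hw)
    exact ⟨0, ⟨(Algebra.ofId k _).comp e.symm.toAlgHom⟩⟩
  tfae_have 3 → 5 := by
    rintro ⟨v, ⟨φ⟩⟩
    obtain ⟨h1, h2⟩ := Pool.Agent.Y216.SV.pt_fractionRing k v
    exact ⟨FractionRing (MvPolynomial (Fin v) k), _, _, v, _, h2, special_of_rational h2 h1, ⟨φ⟩⟩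
  tfae_finish

end cover

end Pool.Agent.Q80.RA
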