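import Pool.Agent.Q80.HC.Pointed
import Pool.Agent.Q80.RA.Spec

/-!
Rational maps from projective spaces to projective varieties with a linear bound for the degrees of
curves.
-/

set_option autoImplicit false

open FF MvPolynomial Pool.Agent.W603.LV Pool.Agent.W603.PV Pool.Agent.TH710.WH Pool.Agent.Y216
open Pool.Agent.W602.GT (val IsForm VarPts SubVar GeneralType val_smul coords)

namespace Pool.Agent.Q80.RA

variable {k : Type} [Field k] {N : ℕ} {K : Type} [Field K] [Algebra k K]

/-- Outside a proper closed subset `G = 0` of the projective variety `V` with the generic point `y`,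
all rational maps from projective spaces (or unirational varieties) to `V` are constant: the points `f`
of `V` with coordinates in a field of rational functions are points over `k` or satisfy `G = 0`. -/
def NoUnirational (k : Type) [Field k] {K : Type} [Field K] [Algebra k K] (y : Fin (N + 1) → K) :
    Prop :=
  ∃ G : MvPolynomial (Fin (N + 1)) k, IsForm G ∧ val y G ≠ 0 ∧
    ∀ (v : ℕ) (f : Fin (N + 1) → FractionRing (MvPolynomial (Fin v) k)), OnVar k y f →
      val f G ≠ 0 → ∃ (c : FractionRing (MvPolynomial (Fin v) k)) (a : Fin (N + 1) → k),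
        ∀ j, f j = c * algebraMap k _ (a j)

/-- clearing denominators -/
theorem clear {v : ℕ} (f : Fin (N + 1) → FractionRing (MvPolynomial (Fin v) k)) :
    ∃ (b : FractionRing (MvPolynomial (Fin v) k)) (P : Fin (N + 1) → MvPolynomial (Fin v) k),
      b ≠ 0 ∧ ∀ j, algebraMap _ (FractionRing (MvPolynomial (Fin v) k)) (P j) = b * f j := by
  classical
  obtain ⟨b, hb⟩ := IsLocalization.exist_integer_multiples_of_finite
    (nonZeroDivisors (MvPolynomial (Fin v) k)) f
  choose P hP using hb
  refine ⟨algebraMap _ _ (b : MvPolynomial (Fin v) k), P, ?_, fun j => ?_⟩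
  · rw [Ne, map_eq_zero_iff _ (IsFractionRing.injective (MvPolynomial (Fin v) k)
      (FractionRing (MvPolynomial (Fin v) k)))]
    exact nonZeroDivisors.coe_ne_zero b
  · rw [hP, Algebra.smul_def]

theorem val_poly {v : ℕ} (P : Fin (N + 1) → MvPolynomial (Fin v) k)
    (G : MvPolynomial (Fin (N + 1)) k) :
    val (fun j => algebraMap _ (FractionRing (MvPolynomial (Fin v) k)) (P j)) G =
      algebraMap _ (FractionRing (MvPolynomial (Fin v) k)) (aeval P G) :=
  aeval_algebraMap_apply (R := k) (A := MvPolynomial (Fin v) k)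
    (B := FractionRing (MvPolynomial (Fin v) k)) P G

/-- **No rational maps.** -/
theorem noUnirational [IsAlgClosed k] [CharZero k] {y : Fin (N + 1) → K} (h : CurveBound k y) :
    NoUnirational k y := by
  classical
  obtain ⟨G, hGf, hGy, B, hB⟩ := h
  refine ⟨G, hGf, hGy, fun v f hf hfG => ?_⟩
  have hinf : Infinite k := inferInstance
  obtain ⟨b, P, hb, hP⟩ := clear f
  have hinj := IsFractionRing.injective (MvPolynomial (Fin v) k)
    (FractionRing (MvPolynomial (Fin v) k))
  have hval : ∀ H : MvPolynomial (Fin (N + 1)) k, ∀ e, H.IsHomogeneous e →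
      algebraMap _ (FractionRing (MvPolynomial (Fin v) k)) (aeval P H) = b ^ e * val f H := by
    intro H e he
    rw [← val_poly]
    have : (fun j => algebraMap _ (FractionRing (MvPolynomial (Fin v) k)) (P j)) =
        fun j => b * f j := funext hP
    rw [this, val_smul he]
  -- the polynomials satisfy the equations
  have hPV : ∀ H : MvPolynomial (Fin (N + 1)) k, IsForm H → val y H = 0 → aeval P H = 0 := by
    rintro H ⟨e, he⟩ h0
    apply hinj
    rw [hval H e he, hf.2 H ⟨e, he⟩ h0, mul_zero, map_zero]
  have hPG : aeval P G ≠ 0 := by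
    obtain ⟨e, he⟩ := hGf
    intro h0
    have h1 := hval G e he
    rw [h0, map_zero] at h1
    exact (mul_ne_zero (pow_ne_zero e hb) hfG) h1.symm
  obtain ⟨j1, hj1⟩ := hf.1
  have hPj1 : P j1 ≠ 0 := by
    intro h0
    have h1 := hP j1
    rw [h0, map_zero] at h1
    exact (mul_ne_zero hb hj1) h1.symm
  -- a point where `G` is not zero
  obtain ⟨p, hp⟩ : ∃ p : Fin v → k, eval p (aeval P G * P j1) ≠ 0 := by
    by_contra hcon
    push Not at hcon
    exact (mul_ne_zero hPG hPj1) (MvPolynomial.funext fun p => by rw [hcon p, map_zero])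
  rw [map_mul] at hp
  have hpG := left_ne_zero_of_mul hp
  have hp1 := right_ne_zero_of_mul hp
  -- the restriction to the line through `p` and `q`
  have key : ∀ (q : Fin v → k) (j : Fin (N + 1)),
      eval q (P j) = eval p (P j) / eval p (P j1) * eval q (P j1) := by
    intro q j
    let ℓ : MvPolynomial (Fin v) k →ₐ[k] Polynomial k :=
      aeval fun i => Polynomial.C (p i) + Polynomial.X * Polynomial.C (q i - p i)
    have hℓ : ∀ (s : k) (Q : MvPolynomial (Fin v) k), (ℓ Q).eval s =
        eval (fun i => p i + s * (q i - p i)) Q := by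
      intro s Q
      have h1 : (Polynomial.aeval s).comp ℓ = aeval fun i => p i + s * (q i - p i) := by
        apply MvPolynomial.algHom_ext
        intro i
        simp [ℓ]
      have h2 := congrArg (fun φ => φ Q) h1
      simp only [AlgHom.comp_apply, Polynomial.coe_aeval_eq_eval] at h2
      exact h2
    have h0 : ∀ Q : MvPolynomial (Fin v) k, (ℓ Q).eval 0 = eval p Q := by
      intro Q
      rw [hℓ]
      congr 1
      simp
    have h1 : ∀ Q : MvPolynomial (Fin v) k, (ℓ Q).eval 1 = eval q Q := by
      intro Q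
      rw [hℓ]
      congr 1
      simp
    have hinjR : Function.Injective (algebraMap (Polynomial k) (RatFunc k)) :=
      RatFunc.algebraMap_injective k
    let g : Fin (N + 1) → RatFunc k := fun j => algebraMap (Polynomial k) (RatFunc k) (ℓ (P j))
    have hg : ∀ H : MvPolynomial (Fin (N + 1)) k, val g H =
        algebraMap (Polynomial k) (RatFunc k) (ℓ (aeval P H)) := by
      intro H
      have h2 := aeval_algebraMap_apply (R := k) (A := Polynomial k) (B := RatFunc k)
        (fun j => ℓ (P j)) H
      rw [MvPolynomial.comp_aeval_apply]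
      exact h2
    have hne : ∀ Q : MvPolynomial (Fin v) k, eval p Q ≠ 0 →
        algebraMap (Polynomial k) (RatFunc k) (ℓ Q) ≠ 0 := by
      intro Q hQ h3
      rw [map_eq_zero_iff _ hinjR] at h3
      apply hQ
      rw [← h0, h3, Polynomial.eval_zero]
    have hgj1 : g j1 ≠ 0 := hne _ hp1
    have h4 := hB (RatFunc k) g ⟨⟨j1, hgj1⟩, fun H hH hyH => by
      rw [hg, hPV H hH hyH, map_zero, map_zero]⟩ (by rw [hg]; exact hne _ hpG)
    rw [canDeg_ratFunc] at h4
    by_cases hgj : g j = 0
    · have h5 : ℓ (P j) = 0 := hinjR (by rw [map_zero]; exact hgj)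
      have h6 : eval q (P j) = 0 := by rw [← h1, h5, Polynomial.eval_zero]
      have h7 : eval p (P j) = 0 := by rw [← h0, h5, Polynomial.eval_zero]
      rw [h6, h7, zero_div, zero_mul]
    · have h5 : hgt k (g j / g j1) ≤ 0 :=
        (Pool.Agent.W603.CX.hgt_le_pht (k := k) g (j := j) (l := j1) hgj hgj1).trans
          (by simpa using h4)
      obtain ⟨c, hc⟩ := Pool.Agent.Y216.const_of_hgt h5
      have h6 : g j = algebraMap k (RatFunc k) c * g j1 := by
        rw [hc]; field_simp
      have h7 : ℓ (P j) = Polynomial.C c * ℓ (P j1) := by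
        apply hinjR
        rw [map_mul]
        exact h6
      have h8 := congrArg (Polynomial.eval 0) h7
      have h9 := congrArg (Polynomial.eval 1) h7
      rw [Polynomial.eval_mul, Polynomial.eval_C, h0, h0] at h8
      rw [Polynomial.eval_mul, Polynomial.eval_C, h1, h1] at h9
      rw [h9, h8]
      field_simp
  have hPj : ∀ j, P j = C (eval p (P j) / eval p (P j1)) * P j1 := by
    intro j
    apply MvPolynomial.funext
    intro q
    rw [map_mul, eval_C]
    exact key q j
  refine ⟨f j1, fun j => eval p (P j) / eval p (P j1), fun j => ?_⟩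
  have h1 := hP j
  rw [hPj j, map_mul, hP j1] at h1
  have h2 : algebraMap (MvPolynomial (Fin v) k) (FractionRing (MvPolynomial (Fin v) k))
      (C (eval p (P j) / eval p (P j1))) = algebraMap k _ (eval p (P j) / eval p (P j1)) :=
    (IsScalarTower.algebraMap_apply k (MvPolynomial (Fin v) k) _ _).symm
  rw [h2] at h1
  apply mul_left_cancel₀ hb
  rw [← h1]
  ring

theorem unirat_of_pt (h : PurelyTranscendental k K) : Unirat k K := by
  classical
  obtain ⟨τ, hτ, σ', hind, htop⟩ := h
  obtain ⟨v, ⟨e⟩⟩ := Finite.exists_equiv_fin τ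
  have hσ : AlgebraicIndependent k (σ' ∘ e.symm) := hind.comp e.symm e.symm.injective
  have hr : Set.range (σ' ∘ e.symm) = Set.range σ' := by
    ext x
    constructor
    · rintro ⟨b, rfl⟩
      exact ⟨e.symm b, rfl⟩
    · rintro ⟨b, rfl⟩
      exact ⟨e b, by simp⟩
  have h1 : IntermediateField.adjoin k (Set.range (σ' ∘ e.symm)) = ⊤ := by rw [hr, htop]
  exact ⟨v, ⟨(hσ.aevalEquivField.symm.toAlgHom).comp
    ((IntermediateField.equivOfEq h1).symm.toAlgHom.comp
      (IntermediateField.topEquiv (F := k) (E := K)).symm.toAlgHom)⟩⟩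

theorem bij_of_dim_zero [IsAlgClosed k] (h : Algebra.trdeg k K = 0) :
    Function.Bijective (algebraMap k K) := by
  rw [trdeg_eq_zero_iff] at h
  exact IsAlgClosed.algebraMap_bijective_of_isIntegral (k := k) (K := K)

theorem pt_of_dim_zero [IsAlgClosed k] (h : Algebra.trdeg k K = 0) :
    PurelyTranscendental k K := by
  refine ⟨Empty, inferInstance, Empty.elim, algebraicIndependent_empty_type_iff.2
    (algebraMap k K).injective, ?_⟩
  rw [eq_top_iff]
  intro x _
  obtain ⟨c, rfl⟩ := (bij_of_dim_zero h).2 x
  exact IntermediateField.algebraMap_mem _ c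

/-- Projective varieties of general type are not dominated by special varieties. -/
theorem not_dominated_coords [CharZero k] {y : Fin (N + 1) → K} (hgen : coords k y = ⊤) {w : ℕ}
    (hw : 1 ≤ w) (h : GeneralType k K w) : ¬ SpecialDom k K := by
  refine not_dominated hw h (S := {f : K | ∃ i j, y j ≠ 0 ∧ f = y i / y j}) ?_ hgen
  refine (Set.finite_range fun z : Fin (N + 1) × Fin (N + 1) => y z.1 / y z.2).subset ?_
  rintro _ ⟨i, j, -, rfl⟩
  exact ⟨(i, j), rfl⟩

/-- **Rationality.** -/
theorem rational_tfae [IsAlgClosed k] [CharZero k] {y : Fin (N + 1) → K} (hy : y ≠ 0)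
    (hgen : coords k y = ⊤) (h : NoUnirational k y) :
    [Algebra.trdeg k K = 0, PurelyTranscendental k K, Unirat k K].TFAE := by
  tfae_have 1 → 2 := pt_of_dim_zero
  tfae_have 2 → 3 := unirat_of_pt
  tfae_have 3 → 1 := by
    rintro ⟨v, ⟨φ⟩⟩
    obtain ⟨G, hGf, hGy, hG⟩ := h
    obtain ⟨j0, hj0⟩ := Function.ne_iff.1 hy
    have hval : ∀ H : MvPolynomial (Fin (N + 1)) k, val (fun j => φ (y j)) H = φ (val y H) := by
      intro H
      exact (MvPolynomial.comp_aeval_apply y φ H).symm
    obtain ⟨c, a, ha⟩ := hG v (fun j => φ (y j)) ⟨⟨j0, (map_ne_zero φ).2 hj0⟩, fun H _ h0 => by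
      rw [hval, h0, map_zero]⟩ (by rw [hval]; exact (map_ne_zero φ).2 hGy)
    have hbot : (⊥ : IntermediateField k K) = ⊤ := by
      rw [eq_top_iff, ← hgen]
      unfold coords
      rw [IntermediateField.adjoin_le_iff]
      rintro _ ⟨i, j, hj, rfl⟩
      show y i / y j ∈ (⊥ : IntermediateField k K)
      rw [IntermediateField.mem_bot]
      refine ⟨a i / a j, ?_⟩
      have hj' : φ (y j) ≠ 0 := (map_ne_zero φ).2 hj
      have haj : algebraMap k (FractionRing (MvPolynomial (Fin v) k)) (a j) ≠ 0 := by
        intro h0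
        apply hj'
        rw [ha, h0, mul_zero]
      have hc : c ≠ 0 := by
        rintro rfl
        apply hj'
        rw [ha, zero_mul]
      apply φ.toRingHom.injective
      show φ _ = φ _
      rw [AlgHom.commutes, map_div₀, map_div₀, ha i, ha j]
      field_simp
    have halg : Algebra.IsAlgebraic k K := by
      refine ⟨fun x => ?_⟩
      have hx : x ∈ (⊥ : IntermediateField k K) := by rw [hbot]; trivial
      obtain ⟨e, rfl⟩ := IntermediateField.mem_bot.1 hx
      exact isAlgebraic_algebraMap e
    exact trdeg_eq_zero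
  tfae_finish

end Pool.Agent.Q80.RA
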