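import Pool.Agent.Q80.RA.Spec
import Pool.Agent.Q13.NS.Camp

/-!
Fibrations of general type from rational maps to projective schemes whose subvarieties are of general
type.
-/

set_option autoImplicit false

open FF MvPolynomial Pool.Agent.W603.LV Pool.Agent.W602.GT Pool.Agent.TH710.WH Pool.Agent.Q80.FH
open Pool.Agent.Q13.NS (FibGT)

namespace Pool.Agent.Q80.RA

/-- **Fibrations of general type from quotients of general type.** -/
theorem fibGT_of_sub {K : Type} [Field K] [Algebra ℂ K] (M : IntermediateField ℂ K) {w' w : ℕ}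
    (hw0 : 0 < w') (hw : Algebra.trdeg ℂ K = w) {S : Set M} (hS : S.Finite)
    (htop : IntermediateField.adjoin ℂ S = ⊤) (h : GeneralType ℂ M w')
    (Bd : Place ℂ K → Prop) : FibGT w Bd := by
  classical
  obtain ⟨htr, N, hN, ω, hω, hreg, D, hD, hind⟩ := h
  obtain ⟨x, hx, -⟩ := Pool.Agent.Y190.BV.exists_basis_in htr (Set.univ : Set M) ⟨fun z => by
    have : (z : M) ∈ Algebra.adjoin ℂ (Set.univ : Set M) :=
      Algebra.subset_adjoin (Set.mem_univ z)
    exact isAlgebraic_algebraMap (⟨z, this⟩ : Algebra.adjoin ℂ (Set.univ : Set M))⟩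
  have hE : ∀ i : Fin w', ∃ E : Derivation ℂ M M, ∀ j, E (x j) = if i = j then 1 else 0 :=
    fun i => exists_der x hx fun j => if i = j then 1 else 0
  choose E hE using hE
  have hDE : ∀ j, ω j D = (Matrix.of fun i l => D i (x l)).det ^ N * ω j E := by
    intro j
    have h1 := hω j (Matrix.of fun i l => D i (x l)) E
    have h2 : (fun i => ∑ l, (Matrix.of fun i l => D i (x l)) i l • E l) = D := by
      funext i
      exact (Pool.Agent.W308.PG.YLOC.expandK x E hx hE (D i)).symm
    rw [h2] at h1
    exact h1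
  set δ : M := (Matrix.of fun i l => D i (x l)).det ^ N with hδ
  have hδ0 : δ ≠ 0 := by
    intro h0
    apply hD
    rw [hDE, h0, zero_mul]
  have hE0 : ω 0 E ≠ 0 := by
    intro h0
    apply hD
    rw [hDE, h0, mul_zero]
  have hratio : ∀ i : Fin w', ω i.succ E / ω 0 E = ω i.succ D / ω 0 D := by
    intro i
    rw [hDE, hDE, mul_div_mul_left _ _ hδ0]
  have hxK : AlgebraicIndependent ℂ (fun l => (x l : K)) :=
    hx.1.map' (f := M.val) M.val.toRingHom.injective
  have hkey : ∀ P : Place ℂ K, Divisorial w P → ∀ D : Fin w' → Derivation ℂ K K,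
      (∀ i, DerReg P (D i)) → ∀ j,
      P.Reg ((ω j E : K) * (Matrix.of fun a b => D a (x b : K)).det ^ N) := by
    intro P hP D hDr j
    obtain ⟨Z, z, hz, hexp, hge⟩ := Pool.Agent.Y216.SV.yloc ℂ K M w' w N htr hw
      (fun y hy => Pool.Agent.Y216.SV.fd_of_fg hS htop hy) (ω j) (hω j) (fun u hu => hreg u hu j)
      x E hx hE P hP
    have h1 : (Matrix.of fun a b => D a (x b : K)).det =
        (Matrix.of fun i c => D i (z c)).det * Z.det := by
      rw [← Matrix.det_transpose Z, ← Matrix.det_mul]
      congr 1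
      ext i l
      rw [Matrix.of_apply, Matrix.mul_apply, hexp]
      refine Finset.sum_congr rfl fun c _ => ?_
      rw [Matrix.of_apply, Matrix.transpose_apply, mul_comm]
    have h2 : Ge P 0 ((Matrix.of fun i c => D i (z c)).det) :=
      Pool.Agent.W619.PQ.ge_det P _ fun i c => hDr i _ (hz c)
    have h3 : (ω j E : K) * (Matrix.of fun a b => D a (x b : K)).det ^ N =
        ((ω j E : K) * Z.det ^ N) * (Matrix.of fun i c => D i (z c)).det ^ N := by
      rw [h1, mul_pow]
      ring
    rw [h3]
    have h4 := hge.mul (h2.pow N)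
    simp only [mul_zero, add_zero] at h4
    exact h4
  refine ⟨w', N, fun l => (x l : K), fun j => (ω j E : K), hw0, hN, hxK, ?_, ?_, ?_, ?_, ?_⟩
  · intro h0
    exact hE0 (Subtype.ext h0)
  · intro j
    have halg : Algebra.IsAlgebraic (IntermediateField.adjoin ℂ (Set.range x)) M :=
      hx.isAlgebraic_field
    have hmap : (IntermediateField.adjoin ℂ (Set.range x)).map M.val =
        IntermediateField.adjoin ℂ (Set.range fun l => (x l : K)) := by
      rw [IntermediateField.adjoin_map]
      congr 1
      rw [← Set.range_comp]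
      rfl
    have hmem : ∀ a : IntermediateField.adjoin ℂ (Set.range x), ((a : M) : K) ∈
        IntermediateField.adjoin ℂ (Set.range fun l => (x l : K)) := by
      intro a
      rw [← hmap]
      exact ⟨a, a.2, rfl⟩
    let ψ : IntermediateField.adjoin ℂ (Set.range x) →+*
        IntermediateField.adjoin ℂ (Set.range fun l => (x l : K)) :=
      { toFun := fun a => ⟨((a : M) : K), hmem a⟩
        map_one' := rfl
        map_mul' := fun _ _ => rfl
        map_zero' := rfl
        map_add' := fun _ _ => rfl }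
    obtain ⟨p, hp0, hp⟩ := halg.isAlgebraic (ω j E / ω 0 E)
    refine ⟨p.map ψ, (Polynomial.map_ne_zero_iff ψ.injective).2 hp0, ?_⟩
    rw [Polynomial.aeval_def, Polynomial.eval₂_map]
    have h1 := congrArg (algebraMap M K) hp
    rw [map_zero, Polynomial.aeval_def, Polynomial.hom_eval₂] at h1
    exact h1
  · have h1 : (fun i : Fin w' => ((ω i.succ E : M) : K) / ((ω 0 E : M) : K)) =
        fun i => M.val (ω i.succ D / ω 0 D) := by
      funext i
      rw [← hratio]
      rfl
    rw [h1]
    exact hind.map' (f := M.val) M.val.toRingHom.injective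
  · intro P hP D hDl j
    exact hkey P hP D (fun i => Pool.Agent.Y190.QP.derReg_of_log (hDl i)) j
  · intro P hP _ D hDr j
    exact hkey P hP D hDr j

variable {k : Type} [Field k] {n r : ℕ} {X : FinCover k n r}

/-- the image of a rational map -/
theorem exists_sub {L : Type} [Field L] [Algebra k L] {v : ℕ} (hL : Algebra.trdeg k L = v)
    {y : Fin (n + 1) → L} {z : Fin r → L} (h : X.Pt y z) :
    ∃ (M : IntermediateField k L) (w' : ℕ) (y' : Fin (n + 1) → M) (z' : Fin r → M) (S : Set M)
      (l : Fin (n + 1)), y l ≠ 0 ∧ (∀ j, y j = y l * (y' j : L)) ∧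
      (∀ i, z i = y l ^ X.wt i * (z' i : L)) ∧ X.SubVar M w' y' z' ∧ S.Finite ∧
      IntermediateField.adjoin k S = ⊤ := by
  classical
  obtain ⟨l, hl⟩ := Function.ne_iff.1 h.1
  have hl' : y l ≠ 0 := hl
  set S : Set L := Set.range (fun j => y j / y l) ∪ Set.range fun i => z i / y l ^ X.wt i with hS
  set M := IntermediateField.adjoin k S with hM
  let y' : Fin (n + 1) → M := fun j =>
    ⟨y j / y l, IntermediateField.subset_adjoin k _ (Or.inl ⟨j, rfl⟩)⟩
  let z' : Fin r → M := fun i =>
    ⟨z i / y l ^ X.wt i, IntermediateField.subset_adjoin k _ (Or.inr ⟨i, rfl⟩)⟩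
  have hy'l : y' l = 1 := Subtype.ext (div_self hl')
  have hpt : X.Pt y' z' := by
    refine ⟨fun h0 => ?_, fun t => ?_⟩
    · have := congrFun h0 l
      rw [hy'l] at this
      exact one_ne_zero this
    · apply Subtype.ext
      have h1 := h.norm hl' t
      have h2 : (fun s => ((Sum.elim y' z' s : M) : L)) =
          Sum.elim (fun j => y j / y l) fun i => z i / y l ^ X.wt i := by
        funext s
        rcases s with s | s <;> rfl
      rw [← h2] at h1
      have h3 := aeval_algebraMap_apply (R := k) (A := M) (B := L) (Sum.elim y' z') (X.eqs t)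
      change aeval (fun s => ((Sum.elim y' z' s : M) : L)) (X.eqs t) = _ at h3
      rw [h1] at h3
      exact h3.symm
  have hfin : (Set.range y' ∪ Set.range z').Finite := (Set.finite_range _).union (Set.finite_range _)
  have htop : IntermediateField.adjoin k (Set.range y' ∪ Set.range z') = ⊤ := by
    have h2 : (IntermediateField.adjoin k (Set.range y' ∪ Set.range z')).map M.val = M := by
      have h3 : M.val '' (Set.range y' ∪ Set.range z') = S := by
        rw [Set.image_union, ← Set.range_comp, ← Set.range_comp]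
        rfl
      rw [IntermediateField.adjoin_map, h3]
    rw [eq_top_iff]
    intro x _
    have h3 : (x : L) ∈ (IntermediateField.adjoin k (Set.range y' ∪ Set.range z')).map M.val := by
      rw [h2]
      exact x.2
    obtain ⟨x', hx', hxx⟩ := h3
    have h4 : x' = x := Subtype.ext hxx
    rwa [← h4]
  obtain ⟨w', hw'⟩ : ∃ w' : ℕ, Algebra.trdeg k M = w' := by
    have h1 : Algebra.trdeg k M ≤ Algebra.trdeg k L := by
      exact trdeg_le_of_injective M.val M.val.toRingHom.injective
    have h2 : Algebra.trdeg k M < Cardinal.aleph0 := by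
      rw [hL] at h1
      exact lt_of_le_of_lt h1 (Cardinal.natCast_lt_aleph0 (n := v))
    exact Cardinal.lt_aleph0.1 h2
  have hsub : X.SubVar M w' y' z' := by
    refine ⟨hpt, ?_, hw'⟩
    rw [eq_top_iff, ← htop, IntermediateField.adjoin_le_iff]
    rintro _ (⟨j, rfl⟩ | ⟨i, rfl⟩)
    · refine IntermediateField.subset_adjoin k _ ⟨l, ?_, Or.inl ⟨j, ?_⟩⟩
      · rw [hy'l]; exact one_ne_zero
      · rw [hy'l, div_one]
    · refine IntermediateField.subset_adjoin k _ ⟨l, ?_, Or.inr ⟨i, ?_⟩⟩
      · rw [hy'l]; exact one_ne_zero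
      · rw [hy'l, one_pow, div_one]
  refine ⟨M, w', y', z', _, l, hl', fun j => ?_, fun i => ?_, hsub, hfin, htop⟩
  · show y j = y l * (y j / y l)
    field_simp
  · show z i = y l ^ X.wt i * (z i / y l ^ X.wt i)
    field_simp

/-- nonconstant rational maps give fibrations of general type -/
theorem fibGT_of_map {X : FinCover ℂ n r} (hX : X.AllGeneralType) {L : Type} [Field L]
    [Algebra ℂ L] {v : ℕ} (hL : Algebra.trdeg ℂ L = v) (Bd : Place ℂ L → Prop)
    {y : Fin (n + 1) → L} {z : Fin r → L} (h : X.Pt y z) (hne : ¬ IsConst X y z) :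
    FibGT v Bd := by
  obtain ⟨M, w', y', z', S, l, hl, hy, hz, hsub, hS, htop⟩ := exists_sub hL h
  rcases Nat.eq_zero_or_pos w' with h0 | h0
  · exfalso
    apply hne
    subst h0
    have halg : Algebra.IsAlgebraic ℂ M := by
      have := hsub.dim
      rw [Nat.cast_zero, trdeg_eq_zero_iff] at this
      exact this
    have hc : ∀ x : M, ∃ c : ℂ, algebraMap ℂ L c = x := by
      intro x
      obtain ⟨c, hc⟩ := (IsAlgClosed.algebraMap_bijective_of_isIntegral (k := ℂ) (K := M)).2 x
      exact ⟨c, by rw [← hc]; rfl⟩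
    choose c hc using hc
    exact ⟨y l, fun j => c (y' j), fun i => c (z' i), hl, fun j => by rw [hc, ← hy],
      fun i => by rw [hc, ← hz]⟩
  · exact fibGT_of_sub M h0 hL hS htop (hX M w' y' z' h0 hsub) Bd

end Pool.Agent.Q80.RA
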