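import Pool.Agent.Q80.FH.Main
import Pool.Agent.Y199.NN.NegA1
import Pool.Agent.W602.GT.KDefs

/-!
Open varieties with a generically finite rational map to projective space which is ramified over
general hypersurfaces.
-/

set_option autoImplicit false

namespace Pool.Agent.Q80.RA

open FF MvPolynomial Pool.Agent.Q80.FH Pool.Agent.W602.GT Pool.Agent.Y191
open Pool.Agent.W619.PL (LogKodairaNeg IsA1Uniruled)

/-- General hypersurfaces: logarithmic general type of the open varieties with a generically finite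
map to projective space, ramified outside the boundary over the hypersurfaces. -/
theorem open_ram (k : Type) [Field k] [IsAlgClosed k] [CharZero k] {n d m N K q : ℕ} (hn : 1 ≤ n)
    (hd : 1 ≤ d) (hm : 2 ≤ m) (hN : N + 1 = (n + d).choose n) (hK : 2 * N * m ≤ K * (m - 1))
    (hq : (N + K).choose N < q) :
    ∃ Ψ : MvPolynomial (Fin q × Exps n d) k, Ψ ≠ 0 ∧
      ∀ F : Fin q → MvPolynomial (Fin (n + 1)) k, (∀ i, (F i).IsHomogeneous d) →
        eval (fun x => coeff x.2.1 (F x.1)) Ψ ≠ 0 →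
          ∀ (L : Type) [Field L] [Algebra k L] (w : ℕ) (Bd : Place k L → Prop)
            (y : Fin (n + 1) → L), 1 ≤ w → Algebra.trdeg k L = w → y ≠ 0 →
            Algebra.IsAlgebraic
              (IntermediateField.adjoin k {f : L | ∃ i j, y j ≠ 0 ∧ f = y i / y j}) L →
            (∀ P : Place k L, Divisorial w P → ¬ Bd P → MultAt m d F y P) →
            LogGeneralType k L w Bd := by
  obtain ⟨d, rfl⟩ : ∃ d', d = d' + 1 := ⟨d - 1, by omega⟩
  have hNv : N = vd n (d + 1) := by
    have := vd_add n (d + 1)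
    omega
  subst hNv
  obtain ⟨Ψ, h1, h2⟩ := generic_hyp k (d := d) hn hm hK hq
  refine ⟨Ψ, h1, fun F hF hΨ L _ _ w Bd y hw htr hy halg hP => ?_⟩
  have hG := h2 F hΨ
  exact full_gt hm hG (ver_ne hy) hw htr (adjoin_ver halg) Bd fun P hdiv hBd =>
    multL_ver hF hy (hP P hdiv hBd)

theorem kod_of_lgt {k L : Type} [Field k] [Field L] [Algebra k L] [CharZero k]
    [Algebra.EssFiniteType k L] {w : ℕ} {Bd : Place k L → Prop} (h : LogGeneralType k L w Bd) :
    KodGe k L w Bd w ∧ ¬ LogKodairaNeg k L w Bd ∧ ¬ IsA1Uniruled k L w Bd := by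
  obtain ⟨htr, N, hN, ω, h1, h2, h3, D, hD, hai⟩ := h
  have h4 : ¬ LogKodairaNeg k L w Bd := fun h =>
    hD (h N hN (ω 0) (h1 0) (fun P hP hB => h3 P hP hB 0) (fun P hP _ => h2 P hP 0) D)
  exact ⟨⟨N, hN, ω, fun j => ⟨h1 j, fun P hP => h2 P hP j, fun P hP hB => h3 P hP hB j⟩, D, hD, hai⟩,
    h4, fun h => h4 (Pool.Agent.Y199.NN.neg_of_a1 htr h)⟩

end Pool.Agent.Q80.RA
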