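import Pool.Agent.Results.MP_9410e4_ag.NonSpecialOrbits

/-!
Orbits in varieties with fibrations of general type.
-/

set_option autoImplicit false

open FF MvPolynomial Pool.Agent.W602.GT Pool.Agent.TH143.GT Pool.Agent.Q13.KO Pool.Agent.Q13.NS

namespace Pool.Agent.Q80.RA

theorem ratImage_self {M : ℕ} (v : ℕ → Fin (M + 1) → ℂ) (hv : ∀ m, v m ≠ 0) : RatImage v v := by
  refine ⟨1, fun _ => 1, fun _ i => X i, fun _ i => isHomogeneous_X _ i, fun m _ i j => ?_,
    fun m => ?_⟩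
  · rw [eval_X, eval_X, mul_comm]
  · obtain ⟨j, hj⟩ := Function.ne_iff.1 (hv m)
    exact ⟨0, j, by rw [eval_X]; exact hj⟩

/-- orbits are not dense -/
theorem orbit_not_dense {k : Type} [Field k] (σ : k →+* ℂ) {M : ℕ}
    {FF : Set (MvPolynomial (Fin (M + 1)) k)} (hFF : ∀ G ∈ FF, IsForm G) {F : Type} [Field F]
    [Algebra ℂ F] {w : ℕ} {ξ : Fin (M + 1) → F}
    (hV : FunField ((Ideal.span FF).map (MvPolynomial.map σ)) 1 F w ξ)
    (hfib : FibGT w (fun _ : Place ℂ F => False)) {x : ℕ → Fin (M + 1) → k} (hx0 : ∀ i, x i ≠ 0)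
    (hxV : ∀ i, ∀ G ∈ FF, eval (x i) G = 0)
    (hx : RatImage (fun i j => σ (x i j)) (fun i j => σ (x (i + 1) j))) :
    ∃ G : MvPolynomial (Fin (M + 1)) k, IsForm G ∧ G ∉ Ideal.span FF ∧ ∀ i, eval (x i) G = 0 := by
  have hne : ∀ i, (fun j => σ (x i j)) ≠ 0 := by
    intro i h0
    refine hx0 i (funext fun j => ?_)
    have h1 := congrFun h0 j
    simpa using h1
  obtain ⟨G, h1, h2, h3⟩ := Pool.Agent.Results.MP_9410e4_ag.NonSpecialOrbits.result σ FF hFF
    ⟨F, _, _, w, ξ, hV, hfib⟩ k σ (by ext; simp) x hx0 (fun i G hG => by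
      have := hxV i G hG
      rw [← this]
      rfl) (Or.inl ⟨M, _, hne, hx, ratImage_self _ hne⟩)
  refine ⟨G, h1, fun h => h2 ?_, h3⟩
  have h4 : (MvPolynomial.map (algebraMap k k) : MvPolynomial (Fin (M + 1)) k →+*
      MvPolynomial (Fin (M + 1)) k) = RingHom.id _ := by
    refine RingHom.ext fun p => ?_
    rw [Algebra.algebraMap_self]
    exact MvPolynomial.map_id p
  rw [h4, Ideal.map_id]
  exact h

end Pool.Agent.Q80.RA
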