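import Pool.Agent.Q80.RA.Spec
import Pool.Agent.Y216.SV.Tns

/-!
Rational maps from varieties without tensor differentials to projective schemes whose subvarieties are
of general type.
-/

set_option autoImplicit false

open FF MvPolynomial Pool.Agent.W603.LV Pool.Agent.W602.GT Pool.Agent.TH710.WH Pool.Agent.Q80.FH
open Pool.Agent.TH710.SP (NoTensors)

namespace Pool.Agent.Q80.RA

variable {k : Type} [Field k] {n r : ℕ} (X : FinCover k n r)

/-- All rational maps to `X` from smooth projective varieties (with the function field `L`, of dimension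
`v`) without holomorphic tensor differentials of positive degree are constant. -/
def NoTensorMaps : Prop :=
  ∀ (L : Type) [Field L] [Algebra k L] (v : ℕ), Algebra.trdeg k L = v → (∀ B, NoTensors k L v B) →
    ∀ (y : Fin (n + 1) → L) (z : Fin r → L), X.Pt y z → IsConst X y z

variable {X}

theorem noTensorMaps (h : NoSpecial X) : NoTensorMaps X :=
  fun L _ _ v hL hs y z hp => h L v _ hL (Pool.Agent.Y216.SV.special_of_noTensors hs) y z hp

theorem tfae_tensors [IsAlgClosed k] [CharZero k] (hX : NoSpecial X) {K : Type} [Field K]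
    [Algebra k K] {w : ℕ} {y : Fin (n + 1) → K} {z : Fin r → K} (h : X.SubVar K w y z) :
    [w = 0, ∀ B, NoTensors k K w B, PurelyTranscendental k K, Unirat k K,
      Special k K w (fun _ => False)].TFAE := by
  have h0 := tfae hX h
  tfae_have 1 ↔ 3 := h0.out 0 1
  tfae_have 1 ↔ 4 := h0.out 0 2
  tfae_have 1 ↔ 5 := h0.out 0 3
  tfae_have 2 → 5 := Pool.Agent.Y216.SV.special_of_noTensors
  tfae_have 1 → 2 := by
    intro hw B r hr _ ω _
    subst hw
    have h1 := h.dim
    rw [Nat.cast_zero, trdeg_eq_zero_iff] at h1
    have h2 := (IsAlgClosed.algebraMap_bijective_of_isIntegral (k := k) (K := K)).2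
    have h3 : ∀ D : Derivation k K K, D = 0 := by
      intro D
      ext x
      obtain ⟨c, rfl⟩ := h2 x
      rw [D.map_algebraMap]
      rfl
    ext D
    exact ω.map_coord_zero ⟨0, hr⟩ (h3 _)
  tfae_finish

end Pool.Agent.Q80.RA
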